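import Mathlib

namespace Pool.Agent.Results.MP_c4a6c0_an.Q1

open Complex

/-- `z` is a zero of `F` in the closed first quadrant. -/
def Z (F : ℂ → ℂ) (z : ℂ) : Prop := F z = 0 ∧ 0 ≤ z.re ∧ 0 ≤ z.im

/-- `F` is not identically zero and has monotonic zeros in `Q`. -/
def Mono (F : ℂ → ℂ) : Prop :=
  F ≠ 0 ∧ ∀ a b, Z F a → Z F b → (a.re = b.re → a = b) ∧ (a.re < b.re → a.im ≤ b.im)

/-- `f` is even, real and entire. -/
def Good (f : ℂ → ℂ) : Prop :=
  Differentiable ℂ f ∧ (∀ z, f (-z) = f z) ∧ ∀ x : ℝ, (f x).im = 0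

/-- The subfamily `(f j)_{j ∈ s}` is compatible. -/
def Compat (f : Fin 3 → ℂ → ℂ) (s : Finset (Fin 3)) : Prop :=
  ∀ c : Fin 3 → ℝ, (∀ j, 0 ≤ c j) → (fun z => ∑ j ∈ s, c j * f j z) ≠ 0 →
    Mono fun z => ∑ j ∈ s, c j * f j z

noncomputable def f (j : Fin 3) (z : ℂ) : ℂ := exp ((j : ℕ) * z ^ 2)

theorem result : ∃ f : Fin 3 → ℂ → ℂ, (∀ j, Good (f j) ∧ Mono (f j)) ∧
    (∀ i j, i < j → Compat f {i, j}) ∧ ¬ Compat f Finset.univ := by
  refine ⟨f, fun j => ⟨⟨by unfold f; fun_prop, fun z => by simp [f], fun x => ?_⟩,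
    fun h => exp_ne_zero _ (congrFun h 0), fun a b h => (exp_ne_zero _ h.1).elim⟩,
    fun i j ij c hc h => ⟨h, fun a b ha hb => ?_⟩, fun h => ?_⟩
  · rw [f]; norm_cast
  · simp only [Finset.sum_pair ij.ne, Z] at h ha hb
    have k (z) (g : c i * f i z + c j * f j z = 0) :
        c i = c j * Real.exp (((j : ℕ) - (i : ℕ)) * (z.re ^ 2 - z.im ^ 2)) := by
      have := congrArg norm (eq_neg_of_add_eq_zero_left g)
      simp only [f, norm_mul, norm_neg, norm_exp, norm_real, Real.norm_of_nonneg (hc _)] at this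
      rw [sub_mul, Real.exp_sub, mul_div_assoc', eq_div_iff (Real.exp_pos _).ne']
      convert this using 3 <;> simp [sq]
    have e := (k a ha.1).symm.trans (k b hb.1)
    have cj : c j ≠ 0 := fun g => h (funext fun z => by
      have := k a ha.1; rw [g, zero_mul] at this; simp [this, g])
    have d : ((j : ℕ) : ℝ) - (i : ℕ) ≠ 0 := sub_ne_zero.2 (by exact_mod_cast (Fin.val_ne_of_ne ij.ne'))
    have e := mul_left_cancel₀ d (Real.exp_injective (mul_left_cancel₀ cj e))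
    refine ⟨fun g => Complex.ext g ((pow_left_inj₀ ha.2.2 hb.2.2 two_ne_zero).1 (by rw [g] at e; linarith)),
      fun g => (abs_le_of_sq_le_sq' ?_ hb.2.2).2⟩
    nlinarith [ha.2.1]
  obtain ⟨s, s0, hs⟩ : ∃ s : ℝ, 0 < s ∧ 2 * s ^ 2 = Real.pi :=
    ⟨√(Real.pi / 2), by positivity, by rw [Real.sq_sqrt (by positivity)]; ring⟩
  have hs' : (Real.pi : ℂ) = 2 * s ^ 2 := by exact_mod_cast hs.symm
  let E := Real.exp (15 / 4 * s ^ 2)
  have F (z : ℂ) : ∑ j, (![E, 1 + E, 1] j : ℝ) * f j z = (exp (z ^ 2) + 1) * (exp (z ^ 2) + E) := by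
    simp [Fin.sum_univ_three, f, two_mul, exp_add]; ring
  have E0 : 0 < E := Real.exp_pos _
  have := ((h ![E, 1 + E, 1] (fun j => by fin_cases j <;> simp <;> positivity) fun g => by
    have := congrFun g 0
    simp only [F, Pi.zero_apply] at this
    norm_num at this; norm_cast at this; linarith).2 (s + s * I) (2 * s + s / 2 * I)
    ⟨?_, by simpa using s0.le, by simpa using s0.le⟩ ⟨?_, by simpa using s0.le, by simp; linarith⟩).2
    (by simp; linarith)
  · simp at this; linarith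
  · simp only [F]
    rw [show (s + s * I) ^ 2 = Real.pi * I by rw [hs']; ring_nf; simp, exp_pi_mul_I]; simp
  · simp only [F]
    rw [show (2 * s + s / 2 * I) ^ 2 = (15 / 4 * s ^ 2 : ℝ) + Real.pi * I by
      rw [hs']; ring_nf; simp; ring, exp_add, exp_pi_mul_I, ← ofReal_exp]; simp [E]

end Pool.Agent.Results.MP_c4a6c0_an.Q1
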